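import Pool.Agent.SAWP.Basic

/-!
# SAWP: crossings, arms and the network (definitions)
-/

set_option autoImplicit false

namespace Pool.Agent.SAWP

/-- The horizontal `3r × r` rectangle `H(x) = x + [0,3r]×[0,r]`. -/
noncomputable def Hr (x : V) (r : ℕ) : Finset V := rect x.1 (x.1 + 3 * r) x.2 (x.2 + r)

/-- The vertical `r × 3r` rectangle `Vt(x) = x + [0,r]×[0,3r]`. -/
noncomputable def Vr (x : V) (r : ℕ) : Finset V := rect x.1 (x.1 + r) x.2 (x.2 + 3 * r)

/-- `l` is a left-right crossing path of `H(x)` of at most `C r` steps along edges of `O`. -/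
def IsHX (O : Set Edge) (x : V) (r C : ℕ) (l : List V) : Prop :=
  ∃ y z, IsP O y z l ∧ (∀ v ∈ l, v ∈ Hr x r) ∧ y.1 = x.1 ∧ z.1 = x.1 + 3 * r ∧ len l ≤ C * r

/-- `l` is a bottom-top crossing path of `Vt(x)` of at most `C r` steps along edges of `O`. -/
def IsVX (O : Set Edge) (x : V) (r C : ℕ) (l : List V) : Prop :=
  ∃ y z, IsP O y z l ∧ (∀ v ∈ l, v ∈ Vr x r) ∧ y.2 = x.2 ∧ z.2 = x.2 + 3 * r ∧ len l ≤ C * r

/-- `H(x)` has a short crossing. -/
def HX (O : Set Edge) (x : V) (r C : ℕ) : Prop := ∃ l, IsHX O x r C l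

/-- `Vt(x)` has a short crossing. -/
def VX (O : Set Edge) (x : V) (r C : ℕ) : Prop := ∃ l, IsVX O x r C l

/-- All `3r×r` and `r×3r` rectangles inside `B` have short long-direction crossings. -/
def Net (O : Set Edge) (B : Finset V) (r C : ℕ) : Prop :=
  (∀ x, Hr x r ⊆ B → HX O x r C) ∧ (∀ x, Vr x r ⊆ B → VX O x r C)

/-- North-east arm: `z` is joined inside `z + [0,n]²` to its top or right side. -/
def NEarm (O : Set Edge) (z : V) (n : ℕ) : Prop :=
  ∃ y l, IsP O z y l ∧ (∀ v ∈ l, v ∈ rect z.1 (z.1 + n) z.2 (z.2 + n)) ∧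
    (y.1 = z.1 + n ∨ y.2 = z.2 + n)

/-- North-west arm: `z` is joined inside `z + [-n,0]×[0,n]` to its top or left side. -/
def NWarm (O : Set Edge) (z : V) (n : ℕ) : Prop :=
  ∃ y l, IsP O z y l ∧ (∀ v ∈ l, v ∈ rect (z.1 - n) z.1 z.2 (z.2 + n)) ∧
    (y.1 = z.1 - n ∨ y.2 = z.2 + n)

/-- `v` lies on a short crossing of `H(x)`. -/
def OnH (O : Set Edge) (x : V) (r C : ℕ) (v : V) : Prop := ∃ l, IsHX O x r C l ∧ v ∈ l

end Pool.Agent.SAWP
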