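import Pool.Agent.SAWP.Defs

/-!
# SAWP: toolkit for list walks
-/

set_option autoImplicit false

namespace Pool.Agent.SAWP

/-! ### Adjacency and edges -/

lemma Adj.symm {x y : V} (h : Adj x y) : Adj y x := by
  unfold Adj at *; rw [abs_sub_comm y.1, abs_sub_comm y.2]; exact h

lemma Adj.ne {x y : V} (h : Adj x y) : x ≠ y := by
  rintro rfl; simp [Adj] at h

lemma edgeOf_comm (x y : V) : edgeOf x y = edgeOf y x := by
  unfold edgeOf
  rw [min_comm x.1, min_comm x.2]
  congr 1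
  simp [eq_comm]

lemma adj_cases {x y : V} (h : Adj x y) :
    (y = (x.1 + 1, x.2)) ∨ (y = (x.1, x.2 + 1)) ∨ (x = (y.1 + 1, y.2)) ∨ (x = (y.1, y.2 + 1)) := by
  obtain ⟨a, b⟩ := x
  obtain ⟨c, d⟩ := y
  simp only [Adj, Prod.mk.injEq] at *
  rcases abs_cases (a - c) with h1 | h1 <;> rcases abs_cases (b - d) with h2 | h2 <;> omega

lemma adj_right (x : V) : Adj x (x.1 + 1, x.2) := by
  simp [Adj]

lemma adj_up (x : V) : Adj x (x.1, x.2 + 1) := by
  simp [Adj]

lemma edgeOf_right (x : V) : edgeOf x (x.1 + 1, x.2) = (x, false) := by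
  simp [edgeOf]

lemma edgeOf_up (x : V) : edgeOf x (x.1, x.2 + 1) = (x, true) := by
  simp [edgeOf]

lemma src_mk (x : V) (t : Bool) : src (x, t) = x := rfl
lemma tgt_false (x : V) : tgt (x, false) = (x.1 + 1, x.2) := rfl
lemma tgt_true (x : V) : tgt (x, true) = (x.1, x.2 + 1) := rfl

lemma adj_src_tgt (e : Edge) : Adj (src e) (tgt e) := by
  obtain ⟨x, t⟩ := e
  cases t
  · exact adj_right x
  · exact adj_up x

lemma edgeOf_src_tgt (e : Edge) : edgeOf (src e) (tgt e) = e := by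
  obtain ⟨x, t⟩ := e
  cases t
  · exact edgeOf_right x
  · exact edgeOf_up x

lemma src_ne_tgt (e : Edge) : src e ≠ tgt e := (adj_src_tgt e).ne

/-- For adjacent `x, y`, the edge `edgeOf x y` has endpoints `x, y`. -/
lemma edgeOf_ends {x y : V} (h : Adj x y) :
    (src (edgeOf x y) = x ∧ tgt (edgeOf x y) = y) ∨ (src (edgeOf x y) = y ∧ tgt (edgeOf x y) = x) := by
  rcases adj_cases h with h | h | h | h
  · left; subst h; rw [edgeOf_right]; exact ⟨rfl, rfl⟩
  · left; subst h; rw [edgeOf_up]; exact ⟨rfl, rfl⟩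
  · right; rw [edgeOf_comm]; subst h; rw [edgeOf_right]; exact ⟨rfl, rfl⟩
  · right; rw [edgeOf_comm]; subst h; rw [edgeOf_up]; exact ⟨rfl, rfl⟩

lemma edgeOf_mem_eS {x y : V} (h : Adj x y) {R : Set V} :
    edgeOf x y ∈ eS R ↔ x ∈ R ∧ y ∈ R := by
  rcases edgeOf_ends h with ⟨h1, h2⟩ | ⟨h1, h2⟩
  · simp [eS, h1, h2]
  · simp [eS, h1, h2, and_comm]

lemma mem_eF {R : Finset V} {e : Edge} : e ∈ eF R ↔ src e ∈ R ∧ tgt e ∈ R := by
  simp [eF, src]

lemma coe_eF (R : Finset V) : (↑(eF R) : Set Edge) = eS ↑R := by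
  ext e; simp [mem_eF, eS]

lemma eF_card_le (R : Finset V) : (eF R).card ≤ 2 * R.card := by
  unfold eF
  refine (Finset.card_filter_le _ _).trans ?_
  simp [Finset.card_product, mul_comm]

lemma mem_rect {a b c d : ℤ} {x : V} :
    x ∈ rect a b c d ↔ a ≤ x.1 ∧ x.1 ≤ b ∧ c ≤ x.2 ∧ x.2 ≤ d := by
  simp [rect, Finset.mem_product, and_assoc]

lemma mem_sq {c : V} {L : ℕ} {x : V} :
    x ∈ sq c L ↔ c.1 ≤ x.1 ∧ x.1 < c.1 + L ∧ c.2 ≤ x.2 ∧ x.2 < c.2 + L := by
  rw [sq, mem_rect]; constructor <;> rintro ⟨h1, h2, h3, h4⟩ <;> refine ⟨?_, ?_, ?_, ?_⟩ <;> omega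

lemma mem_box {c : V} {n : ℕ} {x : V} : x ∈ box c n ↔ nrm (x - c) ≤ n := by
  rw [box, mem_rect]
  simp only [nrm, Prod.fst_sub, Prod.snd_sub]
  constructor
  · rintro ⟨h1, h2, h3, h4⟩; omega
  · intro h
    have := le_max_left (x.1 - c.1).natAbs (x.2 - c.2).natAbs
    have := le_max_right (x.1 - c.1).natAbs (x.2 - c.2).natAbs
    refine ⟨?_, ?_, ?_, ?_⟩ <;> omega

lemma sq_card (c : V) (L : ℕ) : (sq c L).card = L ^ 2 := by
  unfold sq rect
  rw [Finset.card_product, Int.card_Icc, Int.card_Icc]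
  have h1 : (c.1 + L - 1 + 1 - c.1).toNat = L := by omega
  have h2 : (c.2 + L - 1 + 1 - c.2).toNat = L := by omega
  rw [h1, h2]; ring

lemma box_card (c : V) (n : ℕ) : (box c n).card = (2 * n + 1) ^ 2 := by
  unfold box rect
  rw [Finset.card_product, Int.card_Icc, Int.card_Icc]
  have h1 : (c.1 + n + 1 - (c.1 - n)).toNat = 2 * n + 1 := by omega
  have h2 : (c.2 + n + 1 - (c.2 - n)).toNat = 2 * n + 1 := by omega
  rw [h1, h2]; ring

/-! ### Steps -/

lemma Step.symm {O : Set Edge} {x y : V} (h : Step O x y) : Step O y x :=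
  ⟨h.1.symm, by rw [edgeOf_comm]; exact h.2⟩

lemma Step.mono {O O' : Set Edge} (hO : O ⊆ O') {x y : V} (h : Step O x y) : Step O' x y :=
  ⟨h.1, hO h.2⟩

lemma step_of_edge {O : Set Edge} {e : Edge} (h : e ∈ O) : Step O (src e) (tgt e) :=
  ⟨adj_src_tgt e, by rw [edgeOf_src_tgt]; exact h⟩

/-! ### Walks -/

lemma IsW.ne_nil {O : Set Edge} {x y : V} {l : List V} (h : IsW O x y l) : l ≠ [] := by
  rintro rfl; simpa using h.2.1

lemma isW_singleton (O : Set Edge) (x : V) : IsW O x x [x] := by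
  simp [IsW]

lemma isP_singleton (O : Set Edge) (x : V) : IsP O x x [x] := ⟨isW_singleton O x, by simp⟩

lemma IsW.left_mem {O : Set Edge} {x y : V} {l : List V} (h : IsW O x y l) : x ∈ l :=
  List.mem_of_head? h.2.1

lemma IsW.right_mem {O : Set Edge} {x y : V} {l : List V} (h : IsW O x y l) : y ∈ l :=
  List.mem_of_getLast? h.2.2

/-- A walk from `x` is `x :: t`. -/
lemma IsW.eq_cons {O : Set Edge} {x y : V} {l : List V} (h : IsW O x y l) :
    ∃ t, l = x :: t := by
  cases l with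
  | nil => exact absurd rfl h.ne_nil
  | cons a t => exact ⟨t, by have := h.2.1; simp at this; rw [this]⟩

lemma isW_cons_cons {O : Set Edge} {x a b y : V} {t : List V} :
    IsW O x y (a :: b :: t) ↔ a = x ∧ Step O a b ∧ IsW O b y (b :: t) := by
  unfold IsW
  simp only [List.isChain_cons_cons, List.head?_cons, Option.some.injEq, List.getLast?_cons_cons]
  tauto

lemma isW_single {O : Set Edge} {x a y : V} : IsW O x y [a] ↔ a = x ∧ a = y := by
  simp [IsW]

lemma IsW.cons {O : Set Edge} {x y z : V} {l : List V} (h : IsW O y z l) (hs : Step O x y) :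
    IsW O x z (x :: l) := by
  obtain ⟨t, rfl⟩ := h.eq_cons
  exact isW_cons_cons.2 ⟨rfl, hs, h⟩

lemma IsW.mono {O O' : Set Edge} (hO : O ⊆ O') {x y : V} {l : List V} (h : IsW O x y l) :
    IsW O' x y l := ⟨h.1.imp fun _ _ h => h.mono hO, h.2⟩

lemma IsP.mono {O O' : Set Edge} (hO : O ⊆ O') {x y : V} {l : List V} (h : IsP O x y l) :
    IsP O' x y l := ⟨h.1.mono hO, h.2⟩

lemma IsW.reverse {O : Set Edge} {x y : V} {l : List V} (h : IsW O x y l) :
    IsW O y x l.reverse := by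
  refine ⟨?_, by rw [List.head?_reverse]; exact h.2.2, by rw [List.getLast?_reverse]; exact h.2.1⟩
  rw [List.isChain_reverse]
  exact h.1.imp fun _ _ h => h.symm

lemma IsP.reverse {O : Set Edge} {x y : V} {l : List V} (h : IsP O x y l) :
    IsP O y x l.reverse := ⟨h.1.reverse, List.nodup_reverse.2 h.2⟩

lemma len_reverse (l : List V) : len l.reverse = len l := by simp [len]

/-- Concatenation of walks. -/
lemma IsW.append {O : Set Edge} {x y z : V} {l l' : List V} (h : IsW O x y l) (h' : IsW O y z l') :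
    IsW O x z (l ++ l'.tail) := by
  induction l generalizing x with
  | nil => exact absurd rfl h.ne_nil
  | cons a t ih =>
    cases t with
    | nil =>
      obtain ⟨rfl, rfl⟩ := isW_single.1 h
      obtain ⟨t', rfl⟩ := h'.eq_cons
      simpa using h'
    | cons b t =>
      obtain ⟨rfl, hs, h2⟩ := isW_cons_cons.1 h
      have := ih h2
      simpa using this.cons hs

lemma len_append_tail {O O' : Set Edge} {x y y' z : V} {l l' : List V} (h : IsW O x y l)
    (h' : IsW O' y' z l') : len (l ++ l'.tail) = len l + len l' := by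
  have h1 := List.length_pos_iff.2 h.ne_nil
  have h2 := List.length_pos_iff.2 h'.ne_nil
  simp only [len, List.length_append, List.length_tail]
  omega

lemma mem_append_tail {l l' : List V} {v : V} (h : v ∈ l ++ l'.tail) : v ∈ l ∨ v ∈ l' := by
  rcases List.mem_append.1 h with h | h
  · exact Or.inl h
  · exact Or.inr (List.mem_of_mem_tail h)

/-- Splitting a walk at a vertex. -/
lemma IsW.split {O : Set Edge} {x y z : V} {l : List V} (h : IsW O x y l) (hz : z ∈ l) :
    ∃ l₁ l₂, IsW O x z l₁ ∧ IsW O z y l₂ ∧ l = l₁ ++ l₂.tail := by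
  induction l generalizing x with
  | nil => exact absurd rfl h.ne_nil
  | cons a t ih =>
    cases t with
    | nil =>
      obtain ⟨rfl, rfl⟩ := isW_single.1 h
      simp only [List.mem_singleton] at hz
      subst hz
      exact ⟨[z], [z], isW_singleton _ _, isW_singleton _ _, by simp⟩
    | cons b t =>
      obtain ⟨rfl, hs, h2⟩ := isW_cons_cons.1 h
      by_cases hza : z = a
      · subst hza
        exact ⟨[z], z :: b :: t, isW_singleton _ _, h, by simp⟩
      · have hz' : z ∈ b :: t := by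
          rcases List.mem_cons.1 hz with h | h
          · exact absurd h hza
          · exact h
        obtain ⟨l₁, l₂, h3, h4, h5⟩ := ih h2 hz'
        exact ⟨a :: l₁, l₂, h3.cons hs, h4, by rw [h5]; simp⟩

lemma IsP.split {O : Set Edge} {x y z : V} {l : List V} (h : IsP O x y l) (hz : z ∈ l) :
    ∃ l₁ l₂, IsP O x z l₁ ∧ IsP O z y l₂ ∧ l = l₁ ++ l₂.tail ∧ len l = len l₁ + len l₂ ∧
      (∀ v ∈ l₁, v ∈ l) ∧ (∀ v ∈ l₂, v ∈ l) ∧ (∀ v ∈ l₁, v ∈ l₂ → v = z) := by
  obtain ⟨l₁, l₂, h1, h2, h3⟩ := h.1.split hz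
  obtain ⟨t, rfl⟩ := h2.eq_cons
  have hn : (l₁ ++ t).Nodup := by have := h.2; rw [h3] at this; simpa using this
  have hn' := List.nodup_append.1 hn
  have hzt : z ∉ t := fun hzt => hn'.2.2 z h1.right_mem z hzt rfl
  refine ⟨l₁, z :: t, ⟨h1, hn'.1⟩, ⟨h2, List.nodup_cons.2 ⟨hzt, hn'.2.1⟩⟩, h3, ?_, ?_, ?_, ?_⟩
  · rw [h3]; exact len_append_tail h1 h2
  · intro v hv; rw [h3]; exact List.mem_append_left _ hv
  · intro v hv; rw [h3]
    rcases List.mem_cons.1 hv with rfl | hv
    · exact List.mem_append_left _ h1.right_mem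
    · exact List.mem_append_right _ hv
  · intro v hv hv'
    rcases List.mem_cons.1 hv' with rfl | hv'
    · rfl
    · exact absurd rfl (hn'.2.2 v hv v hv')

/-- Concatenation of two paths meeting only at the common endpoint. -/
lemma IsP.append {O : Set Edge} {x y z : V} {l l' : List V} (h : IsP O x y l) (h' : IsP O y z l')
    (hd : ∀ v ∈ l, v ∈ l' → v = y) : IsP O x z (l ++ l'.tail) := by
  refine ⟨h.1.append h'.1, ?_⟩
  obtain ⟨t, rfl⟩ := h'.1.eq_cons
  have hn := List.nodup_cons.1 h'.2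
  rw [List.tail_cons, List.nodup_append]
  refine ⟨h.2, hn.2, ?_⟩
  intro a ha b hb hab
  subst hab
  have := hd a ha (List.mem_cons_of_mem _ hb)
  subst this
  exact hn.1 hb

/-- Loop erasure. -/
lemma IsW.exists_path {O : Set Edge} {x y : V} {l : List V} (h : IsW O x y l) :
    ∃ l', IsP O x y l' ∧ (∀ v ∈ l', v ∈ l) ∧ len l' ≤ len l := by
  induction l generalizing x with
  | nil => exact absurd rfl h.ne_nil
  | cons a t ih =>
    cases t with
    | nil =>
      exact ⟨[a], ⟨h, by simp⟩, fun v hv => hv, le_rfl⟩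
    | cons b t =>
      obtain ⟨rfl, hs, h2⟩ := isW_cons_cons.1 h
      obtain ⟨l', h3, h4, h5⟩ := ih h2
      by_cases ha : a ∈ l'
      · obtain ⟨l₁, l₂, h6, h7, h8, h9, h10, h11, -⟩ := h3.split ha
        refine ⟨l₂, h7, fun v hv => List.mem_cons_of_mem _ (h4 v (h11 v hv)), ?_⟩
        simp only [len, List.length_cons] at *
        omega
      · refine ⟨a :: l', ⟨h3.1.cons hs, List.nodup_cons.2 ⟨ha, h3.2⟩⟩, ?_, ?_⟩
        · intro v hv
          rcases List.mem_cons.1 hv with rfl | hv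
          · simp
          · exact List.mem_cons_of_mem _ (h4 v hv)
        · have := List.length_pos_iff.2 h3.1.ne_nil
          simp only [len, List.length_cons] at *
          omega

/-- A walk with all vertices in `R` uses only edges inside `R`. -/
lemma IsW.restrict {O : Set Edge} {x y : V} {l : List V} (h : IsW O x y l) {R : Set V}
    (hR : ∀ v ∈ l, v ∈ R) : IsW (O ∩ eS R) x y l := by
  refine ⟨?_, h.2⟩
  refine List.IsChain.imp_of_mem_imp ?_ h.1
  intro a b ha hb hab
  exact ⟨hab.1, hab.2, (edgeOf_mem_eS hab.1).2 ⟨hR a ha, hR b hb⟩⟩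

lemma IsP.restrict {O : Set Edge} {x y : V} {l : List V} (h : IsP O x y l) {R : Set V}
    (hR : ∀ v ∈ l, v ∈ R) : IsP (O ∩ eS R) x y l := ⟨h.1.restrict hR, h.2⟩

/-- A walk along edges inside `R` starting in `R` stays in `R`. -/
lemma IsW.mem_of_eS {O : Set Edge} {x y : V} {l : List V} {R : Set V} (h : IsW (O ∩ eS R) x y l)
    (hx : x ∈ R) : ∀ v ∈ l, v ∈ R := by
  induction l generalizing x with
  | nil => exact absurd rfl h.ne_nil
  | cons a t ih =>
    cases t with
    | nil =>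
      obtain ⟨rfl, rfl⟩ := isW_single.1 h
      simpa using hx
    | cons b t =>
      obtain ⟨rfl, hs, h2⟩ := isW_cons_cons.1 h
      have hb := ((edgeOf_mem_eS hs.1).1 hs.2.2).2
      intro v hv
      rcases List.mem_cons.1 hv with rfl | hv
      · exact hx
      · exact ih h2 hb v hv

/-- The number of steps bounds the sup distance. -/
lemma IsW.nrm_le {O : Set Edge} {x y : V} {l : List V} (h : IsW O x y l) :
    nrm (y - x) ≤ len l := by
  induction l generalizing x with
  | nil => exact absurd rfl h.ne_nil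
  | cons a t ih =>
    cases t with
    | nil =>
      obtain ⟨rfl, rfl⟩ := isW_single.1 h
      simp [nrm, len]
    | cons b t =>
      obtain ⟨rfl, hs, h2⟩ := isW_cons_cons.1 h
      have h3 := ih h2
      have h4 := hs.1
      simp only [nrm, len, List.length_cons, Prod.fst_sub, Prod.snd_sub, Adj] at *
      have h5 := abs_le.1 (show |a.1 - b.1| ≤ 1 by have := abs_nonneg (a.2 - b.2); omega)
      have h6 := abs_le.1 (show |a.2 - b.2| ≤ 1 by have := abs_nonneg (a.1 - b.1); omega)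
      have h7 := le_max_left (y.1 - b.1).natAbs (y.2 - b.2).natAbs
      have h8 := le_max_right (y.1 - b.1).natAbs (y.2 - b.2).natAbs
      refine max_le ?_ ?_ <;> omega

/-- First vertex satisfying `P` on a walk: the initial piece up to it avoids `P` before. -/
lemma IsW.first_hit {O : Set Edge} {x y : V} {l : List V} (h : IsW O x y l) (P : V → Prop)
    (hy : ∃ v ∈ l, P v) : ∃ z l₁ l₂, P z ∧ IsW O x z l₁ ∧ IsW O z y l₂ ∧ l = l₁ ++ l₂.tail ∧
      ∀ v ∈ l₁.dropLast, ¬ P v := by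
  induction l generalizing x with
  | nil => exact absurd rfl h.ne_nil
  | cons a t ih =>
    by_cases hPa : P a
    · have hax : a = x := by have := h.2.1; simpa using this
      subst hax
      exact ⟨a, [a], a :: t, hPa, isW_singleton _ _, h, by simp, by simp⟩
    · cases t with
      | nil =>
        obtain ⟨v, hv, hPv⟩ := hy
        rw [List.mem_singleton] at hv
        subst hv
        exact absurd hPv hPa
      | cons b t =>
        obtain ⟨rfl, hs, h2⟩ := isW_cons_cons.1 h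
        have hy' : ∃ v ∈ b :: t, P v := by
          obtain ⟨v, hv, hPv⟩ := hy
          rcases List.mem_cons.1 hv with rfl | hv
          · exact absurd hPv hPa
          · exact ⟨v, hv, hPv⟩
        obtain ⟨z, l₁, l₂, h3, h4, h5, h6, h7⟩ := ih h2 hy'
        refine ⟨z, a :: l₁, l₂, h3, h4.cons hs, h5, by rw [h6]; simp, ?_⟩
        intro v hv
        rw [List.dropLast_cons_of_ne_nil h4.ne_nil] at hv
        rcases List.mem_cons.1 hv with rfl | hv
        · exact hPa
        · exact h7 v hv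

/-! ### Connectivity -/

lemma Conn.refl (O : Set Edge) (x : V) : Conn O x x := ⟨[x], isW_singleton O x⟩

lemma Conn.symm {O : Set Edge} {x y : V} (h : Conn O x y) : Conn O y x := by
  obtain ⟨l, hl⟩ := h; exact ⟨_, hl.reverse⟩

lemma Conn.trans {O : Set Edge} {x y z : V} (h : Conn O x y) (h' : Conn O y z) : Conn O x z := by
  obtain ⟨l, hl⟩ := h
  obtain ⟨l', hl'⟩ := h'
  exact ⟨_, hl.append hl'⟩

lemma Conn.mono {O O' : Set Edge} (hO : O ⊆ O') {x y : V} (h : Conn O x y) : Conn O' x y := by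
  obtain ⟨l, hl⟩ := h; exact ⟨_, hl.mono hO⟩

lemma Step.conn {O : Set Edge} {x y : V} (h : Step O x y) : Conn O x y :=
  ⟨_, (isW_singleton O y).cons h⟩

lemma Conn.exists_path {O : Set Edge} {x y : V} (h : Conn O x y) : ∃ l, IsP O x y l := by
  obtain ⟨l, hl⟩ := h
  obtain ⟨l', h1, -, -⟩ := hl.exists_path
  exact ⟨l', h1⟩

lemma Conn.mem_of_eS {O : Set Edge} {x y : V} {R : Set V} (h : Conn (O ∩ eS R) x y)
    (hx : x ∈ R) : y ∈ R := by
  obtain ⟨l, hl⟩ := h
  exact hl.mem_of_eS hx y hl.right_mem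

/-- Induction along a connection (from the left endpoint). -/
lemma Conn.induction {O : Set Edge} {x y : V} (h : Conn O x y) {P : V → Prop} (hx : P x)
    (hstep : ∀ a b, P a → Step O a b → P b) : P y := by
  obtain ⟨l, hl⟩ := h
  induction l generalizing x with
  | nil => exact absurd rfl hl.ne_nil
  | cons a t ih =>
    cases t with
    | nil =>
      obtain ⟨rfl, rfl⟩ := isW_single.1 hl
      exact hx
    | cons b t =>
      obtain ⟨rfl, hs, h2⟩ := isW_cons_cons.1 hl
      exact ih (hstep _ _ hx hs) h2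

/-! ### Weighted sums -/

lemma gs_nonneg (O : Set Edge) (R : Finset V) (b : ℝ) (Q : List V → Prop) (x y : V) :
    0 ≤ gs O R b Q x y := Finset.sum_nonneg fun _ _ => (Real.exp_pos _).le

/-- Monotonicity of the weighted sums. -/
lemma gs_mono {O O' : Set Edge} {R R' : Finset V} {b : ℝ} {Q Q' : List V → Prop} {x y : V}
    (h : ∀ l, IsP O x y l → (∀ z ∈ l, z ∈ R) → Q l → IsP O' x y l ∧ (∀ z ∈ l, z ∈ R') ∧ Q' l) :
    gs O R b Q x y ≤ gs O' R' b Q' x y := by
  classical
  unfold gs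
  refine Finset.sum_le_sum_of_subset_of_nonneg ?_ fun _ _ _ => (Real.exp_pos _).le
  intro l hl
  rw [Finset.mem_filter, mem_saws] at hl ⊢
  have := h l hl.1.1 hl.1.2 hl.2
  exact ⟨⟨this.1, this.2.1⟩, this.2.2⟩

lemma gs_congr {O O' : Set Edge} {R R' : Finset V} {b : ℝ} {Q Q' : List V → Prop} {x y : V}
    (h : ∀ l, (IsP O x y l ∧ (∀ z ∈ l, z ∈ R) ∧ Q l) ↔ (IsP O' x y l ∧ (∀ z ∈ l, z ∈ R') ∧ Q' l)) :
    gs O R b Q x y = gs O' R' b Q' x y :=
  le_antisymm (gs_mono fun l h1 h2 h3 => (h l).1 ⟨h1, h2, h3⟩)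
    (gs_mono fun l h1 h2 h3 => (h l).2 ⟨h1, h2, h3⟩)

/-- Reversal of paths. -/
lemma gs_reverse (O : Set Edge) (R : Finset V) (b : ℝ) (Q : List V → Prop) (x y : V) :
    gs O R b Q x y = gs O R b (fun l => Q l.reverse) y x := by
  classical
  unfold gs
  refine Finset.sum_bij' (fun l _ => l.reverse) (fun l _ => l.reverse) ?_ ?_ ?_ ?_ ?_
  · intro l hl
    rw [Finset.mem_filter, mem_saws] at hl ⊢
    exact ⟨⟨hl.1.1.reverse, fun z hz => hl.1.2 z (List.mem_reverse.1 hz)⟩, by
      rw [List.reverse_reverse]; exact hl.2⟩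
  · intro l hl
    rw [Finset.mem_filter, mem_saws] at hl ⊢
    exact ⟨⟨hl.1.1.reverse, fun z hz => hl.1.2 z (List.mem_reverse.1 hz)⟩, hl.2⟩
  · intro l _; exact List.reverse_reverse l
  · intro l _; exact List.reverse_reverse l
  · intro l _; rw [len_reverse]

/-- Extra decay: if all paths counted by `Q` have at least `n` steps, then passing from the weight
`b + c` to the weight `b` costs a factor `e^{-cn}`. -/
lemma gs_decay {O : Set Edge} {R : Finset V} {b c : ℝ} (hc : 0 ≤ c) {Q : List V → Prop} {x y : V}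
    {n : ℕ} (h : ∀ l, IsP O x y l → (∀ z ∈ l, z ∈ R) → Q l → n ≤ len l) :
    gs O R (b + c) Q x y ≤ Real.exp (-(c * n)) * gs O R b Q x y := by
  classical
  unfold gs
  rw [Finset.mul_sum]
  refine Finset.sum_le_sum fun l hl => ?_
  rw [Finset.mem_filter, mem_saws] at hl
  rw [← Real.exp_add]
  apply Real.exp_le_exp.2
  have h1 : (n : ℝ) ≤ len l := by exact_mod_cast h l hl.1.1 hl.1.2 hl.2
  nlinarith

/-- Splitting: if every path counted by `Q` splits at some vertex `m ∈ R` into a path counted by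
`Q₁ m` and a path counted by `Q₂ m`, then the weighted sum is bounded by the sum over `m` of the
products. -/
lemma gs_split {O : Set Edge} {R : Finset V} {b : ℝ} {Q : List V → Prop}
    {Q₁ Q₂ : V → List V → Prop} {x y : V}
    (h : ∀ l, IsP O x y l → (∀ z ∈ l, z ∈ R) → Q l → ∃ m l₁ l₂, IsP O x m l₁ ∧ IsP O m y l₂ ∧
      l = l₁ ++ l₂.tail ∧ (∀ z ∈ l₁, z ∈ R) ∧ (∀ z ∈ l₂, z ∈ R) ∧ Q₁ m l₁ ∧ Q₂ m l₂) :
    gs O R b Q x y ≤ ∑ m ∈ R, gs O R b (Q₁ m) x m * gs O R b (Q₂ m) m y := by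
  classical
  have h' : ∀ l : List V, ∃ t : V × List V × List V, l ∈ (saws O R x y).filter Q →
      IsP O x t.1 t.2.1 ∧ IsP O t.1 y t.2.2 ∧ l = t.2.1 ++ t.2.2.tail ∧
      (∀ z ∈ t.2.1, z ∈ R) ∧ (∀ z ∈ t.2.2, z ∈ R) ∧ Q₁ t.1 t.2.1 ∧ Q₂ t.1 t.2.2 := by
    intro l
    by_cases hl : l ∈ (saws O R x y).filter Q
    · rw [Finset.mem_filter, mem_saws] at hl
      obtain ⟨m, l₁, l₂, h1⟩ := h l hl.1.1 hl.1.2 hl.2
      exact ⟨(m, l₁, l₂), fun _ => h1⟩
    · exact ⟨((0, 0), [], []), fun h => absurd h hl⟩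
  choose f hf using h'
  unfold gs
  have h1 : ∑ m ∈ R, (∑ l ∈ (saws O R x m).filter (Q₁ m), Real.exp (-(b * (len l : ℝ)))) *
      (∑ l ∈ (saws O R m y).filter (Q₂ m), Real.exp (-(b * (len l : ℝ)))) =
      ∑ t ∈ R.sigma (fun m => (saws O R x m).filter (Q₁ m) ×ˢ (saws O R m y).filter (Q₂ m)),
        Real.exp (-(b * (len t.2.1 : ℝ))) * Real.exp (-(b * (len t.2.2 : ℝ))) := by
    rw [Finset.sum_sigma]
    refine Finset.sum_congr rfl fun m _ => ?_
    rw [Finset.sum_mul_sum, Finset.sum_product]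
  rw [h1]
  have h2 : ∑ l ∈ (saws O R x y).filter Q, Real.exp (-(b * (len l : ℝ))) =
      ∑ t ∈ ((saws O R x y).filter Q).image
        (fun l => (⟨(f l).1, (f l).2⟩ : (_ : V) × (List V × List V))),
        Real.exp (-(b * (len t.2.1 : ℝ))) * Real.exp (-(b * (len t.2.2 : ℝ))) := by
    rw [Finset.sum_image]
    · refine Finset.sum_congr rfl fun l hl => ?_
      obtain ⟨h3, h4, h5, -⟩ := hf l hl
      have h6 : len l = len (f l).2.1 + len (f l).2.2 := by
        conv_lhs => rw [h5]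
        exact len_append_tail h3.1 h4.1
      rw [← Real.exp_add, h6]
      congr 1
      push_cast
      ring
    · intro l hl l' hl' hll
      simp only [Sigma.mk.injEq, heq_eq_eq] at hll
      have h5 := (hf l hl).2.2.1
      have h5' := (hf l' hl').2.2.1
      rw [h5, h5', hll.2]
  rw [h2]
  refine Finset.sum_le_sum_of_subset_of_nonneg ?_ fun _ _ _ => by positivity
  intro t ht
  rw [Finset.mem_image] at ht
  obtain ⟨l, hl, rfl⟩ := ht
  obtain ⟨h3, h4, h5, h6, h7, h8, h9⟩ := hf l hl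
  rw [Finset.mem_sigma]
  refine ⟨h6 _ h3.1.right_mem, ?_⟩
  rw [Finset.mem_product, Finset.mem_filter, Finset.mem_filter, mem_saws, mem_saws]
  exact ⟨⟨⟨h3, h6⟩, h8⟩, ⟨h4, h7⟩, h9⟩

end Pool.Agent.SAWP
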