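import Mathlib

/-!
# SAWP: growth rate of self-avoiding walks on the supercritical planar percolation cluster
(MP_425fca_pr, frozen statement S19283)

Basic definitions.  Paper proof: team-store MP_425fca_proof_helper57.md.
-/

set_option autoImplicit false

open MeasureTheory

namespace Pool.Agent.SAWP

/-- Vertices of the square lattice. -/
abbrev V := ℤ × ℤ

/-- Edges: `(x, false)` joins `x` and `x + e₁`, `(x, true)` joins `x` and `x + e₂`. -/
abbrev Edge := V × Bool

/-- Percolation configurations: `ω e = true` means that the edge `e` is open. -/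
abbrev Cfg := Edge → Bool

/-- First (lower / left) endpoint of an edge. -/
def src (e : Edge) : V := e.1

/-- Second (upper / right) endpoint of an edge. -/
def tgt (e : Edge) : V := if e.2 then (e.1.1, e.1.2 + 1) else (e.1.1 + 1, e.1.2)

/-- Lattice adjacency. -/
def Adj (x y : V) : Prop := |x.1 - y.1| + |x.2 - y.2| = 1

/-- The edge joining two adjacent vertices (junk otherwise). Symmetric in `x, y`. -/
def edgeOf (x y : V) : Edge := ((min x.1 y.1, min x.2 y.2), decide (x.1 = y.1))

/-- The set of open edges of a configuration. -/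
def Op (ω : Cfg) : Set Edge := {e | ω e = true}

/-- Edges with both endpoints in `R`. -/
def eS (R : Set V) : Set Edge := {e | src e ∈ R ∧ tgt e ∈ R}

/-- Edges with both endpoints in the finite set `R`, as a finset. -/
def eF (R : Finset V) : Finset Edge :=
  (R ×ˢ (Finset.univ : Finset Bool)).filter (fun e => tgt e ∈ R)

/-- One step along an edge of the edge set `O`. -/
def Step (O : Set Edge) (x y : V) : Prop := Adj x y ∧ edgeOf x y ∈ O

/-- `l` is a walk from `x` to `y` along edges of `O` (list of its vertices). -/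
def IsW (O : Set Edge) (x y : V) (l : List V) : Prop :=
  l.IsChain (Step O) ∧ l.head? = some x ∧ l.getLast? = some y

/-- `l` is a self-avoiding walk (path) from `x` to `y` along edges of `O`. -/
def IsP (O : Set Edge) (x y : V) (l : List V) : Prop := IsW O x y l ∧ l.Nodup

/-- Number of steps of a list walk. -/
def len (l : List V) : ℕ := l.length - 1

/-- Connection along edges of `O`. -/
def Conn (O : Set Edge) (x y : V) : Prop := ∃ l, IsW O x y l

/-- Sup norm. -/
def nrm (x : V) : ℕ := max x.1.natAbs x.2.natAbs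

/-- The rectangle `[a,b] × [c,d]`. -/
noncomputable def rect (a b c d : ℤ) : Finset V := Finset.Icc a b ×ˢ Finset.Icc c d

/-- The square `c + [0,L)²`. -/
noncomputable def sq (c : V) (L : ℕ) : Finset V :=
  rect c.1 (c.1 + L - 1) c.2 (c.2 + L - 1)

/-- The box of radius `n` around `x`. -/
noncomputable def box (x : V) (n : ℕ) : Finset V := rect (x.1 - n) (x.1 + n) (x.2 - n) (x.2 + n)

/-- The open one-step relation inside a vertex set, used for finiteness of path sets. -/
lemma nodup_lists_finite (R : Finset V) : {l : List V | l.Nodup ∧ ∀ z ∈ l, z ∈ R}.Finite := by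
  classical
  have h : Set.Finite {l : List V | l.length ≤ R.card ∧ ∀ z ∈ l, z ∈ R} := by
    have h1 : {l : List V | l.length ≤ R.card ∧ ∀ z ∈ l, z ∈ R} ⊆
        ⋃ n ∈ Finset.range (R.card + 1), {l : List V | l.length = n ∧ ∀ z ∈ l, z ∈ R} := by
      rintro l ⟨h1, h2⟩
      simp only [Set.mem_iUnion]
      exact ⟨l.length, Finset.mem_range.2 (by omega), rfl, h2⟩
    refine Set.Finite.subset (Set.Finite.biUnion (Finset.finite_toSet _) ?_) h1
    intro n _
    have h2 : {l : List V | l.length = n ∧ ∀ z ∈ l, z ∈ R} ⊆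
        (fun v : List.Vector R n => (v.toList.map Subtype.val)) '' Set.univ := by
      rintro l ⟨h1, h2⟩
      refine ⟨⟨l.attach.map (fun z => ⟨z.1, h2 z.1 z.2⟩), by simp [h1]⟩, trivial, ?_⟩
      simp only [List.Vector.toList, List.map_map, Function.comp_def]
      exact List.attach_map_subtype_val l
    exact Set.Finite.subset (Set.Finite.image _ Set.finite_univ) h2
  refine h.subset ?_
  rintro l ⟨h1, h2⟩
  refine ⟨?_, h2⟩
  have : l.toFinset ⊆ R := by intro z hz; exact h2 z (List.mem_toFinset.1 hz)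
  calc l.length = l.toFinset.card := (List.toFinset_card_of_nodup h1).symm
    _ ≤ R.card := Finset.card_le_card this

lemma saws_finite (O : Set Edge) (R : Finset V) (x y : V) :
    {l : List V | IsP O x y l ∧ ∀ z ∈ l, z ∈ R}.Finite :=
  (nodup_lists_finite R).subset fun _ h => ⟨h.1.2, h.2⟩

/-- The finite set of paths from `x` to `y` along edges of `O` with all vertices in `R`. -/
noncomputable def saws (O : Set Edge) (R : Finset V) (x y : V) : Finset (List V) :=
  (saws_finite O R x y).toFinset

lemma mem_saws {O : Set Edge} {R : Finset V} {x y : V} {l : List V} :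
    l ∈ saws O R x y ↔ IsP O x y l ∧ ∀ z ∈ l, z ∈ R := by
  simp [saws]

open Classical in
/-- Weighted sum `∑ e^{-b|γ|}` over the paths `γ` from `x` to `y` inside `R` along edges of `O`
that satisfy `Q`. -/
noncomputable def gs (O : Set Edge) (R : Finset V) (b : ℝ) (Q : List V → Prop) (x y : V) : ℝ :=
  ∑ l ∈ (saws O R x y).filter Q, Real.exp (-(b * (len l : ℝ)))

/-- `s` is extreme for the first coordinate. -/
def hext (s : V) (l : List V) : Prop := (∀ z ∈ l, s.1 ≤ z.1) ∨ (∀ z ∈ l, z.1 ≤ s.1)

/-- `s` is extreme for the second coordinate. -/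
def vext (s : V) (l : List V) : Prop := (∀ z ∈ l, s.2 ≤ z.2) ∨ (∀ z ∈ l, z.2 ≤ s.2)

/-- The list has sup-norm diameter `< w`. -/
def dlt (w : ℕ) (l : List V) : Prop :=
  ∀ z ∈ l, ∀ z' ∈ l, |z.1 - z'.1| < (w : ℤ) ∧ |z.2 - z'.2| < (w : ℤ)

/-- All vertices between the vertical lines through `s` and `m`. -/
def btw (s m : V) (l : List V) : Prop := ∀ z ∈ l, min s.1 m.1 ≤ z.1 ∧ z.1 ≤ max s.1 m.1

/-- All vertices between the horizontal lines through `s` and `m`. -/
def vbtw (s m : V) (l : List V) : Prop := ∀ z ∈ l, min s.2 m.2 ≤ z.2 ∧ z.2 ≤ max s.2 m.2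

/-- The K-bad event for the square `R` at width `w` (section 1 of the paper proof). -/
def KBad (b β A₀ : ℝ) (w : ℕ) (R : Finset V) (ω : Cfg) : Prop :=
  (∃ s ∈ R, ∃ m ∈ R, (w : ℤ) ≤ |m.1 - s.1| ∧
    Real.exp (β / 4 * w) ≤ gs (Op ω) R b (btw s m) s m) ∨
  (∃ s ∈ R, ∃ m ∈ R, (w : ℤ) ≤ |m.2 - s.2| ∧
    Real.exp (β / 4 * w) ≤ gs (Op ω) R b (vbtw s m) s m) ∨
  (∃ s ∈ R, ∃ e ∈ R,
    Real.exp (A₀ * w) ≤ gs (Op ω) R b (fun l => dlt w l ∧ hext s l ∧ vext e l) s e)

/-! ### Probability -/

/-- Bernoulli law on `Bool`. -/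
noncomputable def bern (p : unitInterval) : Measure Bool :=
  ENNReal.ofReal p.1 • Measure.dirac true + ENNReal.ofReal (1 - p.1) • Measure.dirac false

instance (p : unitInterval) : IsProbabilityMeasure (bern p) := by
  constructor
  have h0 := p.2.1
  have h1 := p.2.2
  simp only [bern, Measure.coe_add, Measure.coe_smul, Pi.add_apply, Pi.smul_apply,
    measure_univ, smul_eq_mul, mul_one]
  rw [← ENNReal.ofReal_add h0 (by linarith)]
  simp

/-- The law of the percolation configuration. -/
noncomputable def perc (p : unitInterval) : Measure Cfg := Measure.infinitePi fun _ => bern p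

instance (p : unitInterval) : IsProbabilityMeasure (perc p) := by
  unfold perc; infer_instance

/-- Real-valued probability. -/
noncomputable def PR (p : unitInterval) (A : Set Cfg) : ℝ := (perc p).real A

/-- The event `A` depends only on the edges of `D`. -/
def Dep (D : Set Edge) (A : Set Cfg) : Prop :=
  ∀ ω ω' : Cfg, (∀ e ∈ D, ω e = ω' e) → (ω ∈ A ↔ ω' ∈ A)

/-- Increasing events. -/
def Incr (A : Set Cfg) : Prop := ∀ ω ω' : Cfg, (∀ e, ω e = true → ω' e = true) → ω ∈ A → ω' ∈ A

/-- `σ_n(v)`: number of `n`-step open self-avoiding walks from `v`. -/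
noncomputable def sig (ω : Cfg) (v : V) (n : ℕ) : ℕ :=
  Set.ncard {l : List V | l.IsChain (Step (Op ω)) ∧ l.Nodup ∧ l.head? = some v ∧ l.length = n + 1}

/-- The open cluster of `v` is infinite. -/
def InfCl (ω : Cfg) (v : V) : Prop := {w : V | Conn (Op ω) v w}.Infinite

/-- `U(c)`: a.s. for every vertex the growth rate is at most `c`. -/
def UB (p : unitInterval) (c : ℝ) : Prop :=
  ∀ᵐ ω ∂(perc p), ∀ v : V, ∀ ε : ℝ, 0 < ε → ∀ᶠ n : ℕ in Filter.atTop,
    (sig ω v n : ℝ) ≤ Real.exp ((c + ε) * n)

/-- `L(c)`: a.s. for every vertex with infinite cluster the growth rate is at least `c`. -/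
def LB (p : unitInterval) (c : ℝ) : Prop :=
  ∀ᵐ ω ∂(perc p), ∀ v : V, InfCl ω v → ∀ ε : ℝ, 0 < ε → ∀ᶠ n : ℕ in Filter.atTop,
    Real.exp ((c - ε) * n) ≤ (sig ω v n : ℝ)

/-- `ρ_k`, the probability that a square of side `4·16^k` is K-bad at width `16^(k-i₂)`. -/
noncomputable def rho (p : unitInterval) (b β A₀ : ℝ) (i₂ k : ℕ) : ℝ :=
  PR p {ω | KBad b β A₀ (16 ^ (k - i₂)) (sq (0, 0) (4 * 16 ^ k)) ω}

/-- The threshold `δ₁ = ρ_max / 128`, `ρ_max = 289^{-201}`. -/
noncomputable def delta1 : ℝ := (289 : ℝ)⁻¹ ^ 201 / 128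

end Pool.Agent.SAWP
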