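import Pool.Agent.SAWP.Basic

/-!
# SAWP: probability API (module P0)

`perc p` is an infinite product of Bernoulli laws, `PR p A` its real-valued probability, `Dep D A`
says that the event `A` depends only on the edges in `D`.  `FD A` = depends on finitely many edges.

Proof hints.
* `measurableSet_of_dep`: the event is the preimage, under the restriction to the finite set `D`, of
  a set of the finite (discrete) space `D → Bool`.
* `Dep.inter_dom`: given `ω = ω'` on `D ∩ F` let `ω''` be `ω` on `D` and `ω'` off `D`.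
* independence: `Measure.infinitePi` and `ProbabilityTheory.iIndepFun_infinitePi`,
  `iIndepFun.indepFun_finset` (or directly through `infinitePi_pi` on singletons of the finite
  spaces `D → Bool`; the finite formula of `PR_finite` below also gives it).
* `PR_perm`: `Measure.infinitePi_map_piCongrLeft` or `Measure.eq_infinitePi`.
* `PR_flip`: `Measure.infinitePi_map_pi` with the map `Bool.not` in each coordinate.
-/

set_option autoImplicit false

open MeasureTheory

namespace Pool.Agent.SAWP

/-- Events depending on finitely many edges. -/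
def FD (A : Set Cfg) : Prop := ∃ F : Finset Edge, Dep (↑F : Set Edge) A

/-! ### Dependence calculus -/

lemma Dep.mono {D D' : Set Edge} (hD : D ⊆ D') {A : Set Cfg} (h : Dep D A) : Dep D' A :=
  fun ω ω' hω => h ω ω' fun e he => hω e (hD he)

lemma Dep.compl {D : Set Edge} {A : Set Cfg} (h : Dep D A) : Dep D Aᶜ :=
  fun ω ω' hω => not_congr (h ω ω' hω)

lemma Dep.inter {D : Set Edge} {A B : Set Cfg} (hA : Dep D A) (hB : Dep D B) : Dep D (A ∩ B) :=
  fun ω ω' hω => and_congr (hA ω ω' hω) (hB ω ω' hω)

lemma Dep.union {D : Set Edge} {A B : Set Cfg} (hA : Dep D A) (hB : Dep D B) : Dep D (A ∪ B) :=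
  fun ω ω' hω => or_congr (hA ω ω' hω) (hB ω ω' hω)

lemma Dep.iUnion {ι : Sort*} {D : Set Edge} {A : ι → Set Cfg} (hA : ∀ i, Dep D (A i)) :
    Dep D (⋃ i, A i) := by
  intro ω ω' hω
  simp only [Set.mem_iUnion]
  exact exists_congr fun i => hA i ω ω' hω

lemma Dep.iInter {ι : Sort*} {D : Set Edge} {A : ι → Set Cfg} (hA : ∀ i, Dep D (A i)) :
    Dep D (⋂ i, A i) := by
  intro ω ω' hω
  simp only [Set.mem_iInter]
  exact forall_congr' fun i => hA i ω ω' hω

/-- If an event depends only on `D` and only on `F`, it depends only on `D ∩ F`. -/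
theorem Dep.inter_dom {D F : Set Edge} {A : Set Cfg} (hD : Dep D A) (hF : Dep F A) :
    Dep (D ∩ F) A := by
  classical
  intro ω ω' h
  rw [hD ω (fun e => if e ∈ D then ω e else ω' e) (fun e he => by simp [he])]
  refine hF _ _ fun e he => ?_
  by_cases hd : e ∈ D
  · simp only [hd, if_true]; exact h e ⟨hd, he⟩
  · simp only [hd, if_false]

/-- An event defined through the open edges in `D` depends only on `D`. -/
lemma dep_of_op {D : Set Edge} (P : Set Edge → Prop) : Dep D {ω | P (Op ω ∩ D)} := by
  intro ω ω' hω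
  have : Op ω ∩ D = Op ω' ∩ D := by
    ext e
    simp only [Op, Set.mem_inter_iff]
    constructor
    · rintro ⟨h1, h2⟩; exact ⟨by have := hω e h2; simp_all, h2⟩
    · rintro ⟨h1, h2⟩; exact ⟨by have := hω e h2; simp_all, h2⟩
  simp only [Set.mem_ofPred_eq, this]

/-! ### Measurability and elementary properties of `PR` -/

lemma dep_eq_preimage {F : Finset Edge} {A : Set Cfg} (h : Dep (↑F : Set Edge) A) :
    A = (fun (ω : Cfg) (i : F) => ω i) ⁻¹' ((fun (ω : Cfg) (i : F) => ω i) '' A) := by
  refine Set.Subset.antisymm (Set.subset_preimage_image _ _) ?_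
  rintro ω ⟨ω', h1, h2⟩
  refine (h ω' ω fun e he => ?_).1 h1
  exact congrFun h2 ⟨e, he⟩

theorem measurableSet_of_dep {F : Finset Edge} {A : Set Cfg} (h : Dep (↑F : Set Edge) A) :
    MeasurableSet A := by
  rw [dep_eq_preimage h]
  refine MeasurableSet.preimage (Set.toFinite _).measurableSet ?_
  fun_prop

lemma FD.measurableSet {A : Set Cfg} (h : FD A) : MeasurableSet A := by
  obtain ⟨F, hF⟩ := h; exact measurableSet_of_dep hF

lemma PR_nonneg (p : unitInterval) (A : Set Cfg) : 0 ≤ PR p A := measureReal_nonneg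

lemma PR_le_one (p : unitInterval) (A : Set Cfg) : PR p A ≤ 1 := by
  unfold PR; exact measureReal_le_one

lemma PR_mono (p : unitInterval) {A B : Set Cfg} (h : A ⊆ B) : PR p A ≤ PR p B :=
  measureReal_mono h

lemma PR_union_le (p : unitInterval) (A B : Set Cfg) : PR p (A ∪ B) ≤ PR p A + PR p B :=
  measureReal_union_le A B

theorem PR_biUnion_le (p : unitInterval) {ι : Type*} (s : Finset ι) (A : ι → Set Cfg) :
    PR p (⋃ i ∈ s, A i) ≤ ∑ i ∈ s, PR p (A i) :=
  measureReal_biUnion_finset_le s A

lemma PR_compl (p : unitInterval) {A : Set Cfg} (h : MeasurableSet A) :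
    PR p Aᶜ = 1 - PR p A := by
  unfold PR; rw [measureReal_compl h]; simp

/-! ### Independence -/

/-- Events depending on disjoint edge sets are independent. -/
theorem PR_indep (p : unitInterval) {D₁ D₂ : Set Edge} {A B : Set Cfg} (hA : Dep D₁ A)
    (hB : Dep D₂ B) (hd : Disjoint D₁ D₂) (hFA : FD A) (hFB : FD B) :
    PR p (A ∩ B) = PR p A * PR p B := by
  classical
  obtain ⟨F₁, h₁⟩ := hFA
  obtain ⟨F₂, h₂⟩ := hFB
  have hA' : Dep (↑(F₁.filter (· ∈ D₁)) : Set Edge) A := by
    refine (hA.inter_dom h₁).mono ?_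
    intro e he; simpa [and_comm] using he
  have hB' : Dep (↑(F₂.filter (· ∈ D₂)) : Set Edge) B := by
    refine (hB.inter_dom h₂).mono ?_
    intro e he; simpa [and_comm] using he
  have hdis : Disjoint (F₁.filter (· ∈ D₁)) (F₂.filter (· ∈ D₂)) := by
    rw [Finset.disjoint_left]
    intro e he1 he2
    exact Set.disjoint_left.1 hd (Finset.mem_filter.1 he1).2 (Finset.mem_filter.1 he2).2
  have hind : ProbabilityTheory.iIndepFun (fun (e : Edge) (ω : Cfg) => ω e) (perc p) := by
    unfold perc
    exact ProbabilityTheory.iIndepFun_infinitePi (X := fun _ ω => ω) (fun _ => by fun_prop)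
  have h3 := hind.indepFun_finset _ _ hdis (fun i => by fun_prop)
  have h4 := h3.measure_inter_preimage_eq_mul _ _
    (Set.toFinite ((fun (ω : Cfg) (i : F₁.filter (· ∈ D₁)) => ω i) '' A)).measurableSet
    (Set.toFinite ((fun (ω : Cfg) (i : F₂.filter (· ∈ D₂)) => ω i) '' B)).measurableSet
  rw [← dep_eq_preimage hA', ← dep_eq_preimage hB'] at h4
  unfold PR Measure.real
  rw [h4, ENNReal.toReal_mul]

/-- Finite families depending on pairwise disjoint edge sets. -/
theorem PR_iInter_indep (p : unitInterval) {ι : Type*} (s : Finset ι) (A : ι → Set Cfg)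
    (D : ι → Set Edge) (hdep : ∀ i ∈ s, Dep (D i) (A i)) (hfd : ∀ i ∈ s, FD (A i))
    (hdisj : ∀ i ∈ s, ∀ j ∈ s, i ≠ j → Disjoint (D i) (D j)) :
    PR p (⋂ i ∈ s, A i) = ∏ i ∈ s, PR p (A i) := by
  classical
  induction s using Finset.induction_on with
  | empty => simp [PR]
  | insert a s ha ih =>
    have hs : ∀ i ∈ s, i ∈ insert a s := fun i hi => Finset.mem_insert_of_mem hi
    rw [Finset.set_biInter_insert, Finset.prod_insert ha,
      ← ih (fun i hi => hdep i (hs i hi)) (fun i hi => hfd i (hs i hi))
        (fun i hi j hj => hdisj i (hs i hi) j (hs j hj))]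
    have hFD : FD (⋂ i ∈ s, A i) := by
      have h1 : ∀ i ∈ s, FD (A i) := fun i hi => hfd i (hs i hi)
      choose! F hF using h1
      refine ⟨s.biUnion F, ?_⟩
      refine Dep.iInter fun i => Dep.iInter fun hi => (hF i hi).mono ?_
      intro e he
      simp only [Finset.coe_biUnion, Set.mem_iUnion]
      exact ⟨i, hi, he⟩
    refine PR_indep p (D₁ := D a) (D₂ := ⋃ i ∈ s, D i) (hdep a (Finset.mem_insert_self _ _)) ?_ ?_
      (hfd a (Finset.mem_insert_self _ _)) hFD
    · refine Dep.iInter fun i => Dep.iInter fun hi => (hdep i (hs i hi)).mono ?_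
      intro e he
      simp only [Set.mem_iUnion]
      exact ⟨i, hi, he⟩
    · rw [Set.disjoint_iUnion₂_right]
      intro i hi
      exact hdisj a (Finset.mem_insert_self _ _) i (hs i hi) (by rintro rfl; exact ha hi)

/-! ### Symmetries -/

/-- Invariance under permutations of the edges. -/
theorem PR_perm (p : unitInterval) (σ : Edge ≃ Edge) {A : Set Cfg} (hA : MeasurableSet A) :
    PR p {ω | (fun e => ω (σ e)) ∈ A} = PR p A := by
  classical
  have hm : Measurable (fun (ω : Cfg) (e : Edge) => ω (σ e)) := by fun_prop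
  have h1 : (perc p).map (fun (ω : Cfg) (e : Edge) => ω (σ e)) = perc p := by
    unfold perc
    refine Measure.eq_infinitePi _ fun s t ht => ?_
    rw [Measure.map_apply hm (.pi s.countable_toSet fun _ _ => ht _)]
    have h2 : (fun (ω : Cfg) (e : Edge) => ω (σ e)) ⁻¹' ((s : Set Edge).pi t) =
        ((s.map σ.toEmbedding : Finset Edge) : Set Edge).pi (fun e => t (σ.symm e)) := by
      ext ω
      simp only [Set.mem_preimage, Set.mem_pi, Finset.mem_coe, Finset.mem_map_equiv]
      constructor
      · intro h e he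
        have := h (σ.symm e) he
        rwa [σ.apply_symm_apply] at this
      · intro h e he
        have := h (σ e) (by rwa [σ.symm_apply_apply])
        rwa [σ.symm_apply_apply] at this
    rw [h2, Measure.infinitePi_pi _ (fun i _ => ht _), Finset.prod_map]
    simp
  have h3 : (perc p).real {ω | (fun e => ω (σ e)) ∈ A} =
      ((perc p).map (fun (ω : Cfg) (e : Edge) => ω (σ e))).real A := by
    rw [map_measureReal_apply hm hA]; rfl
  unfold PR
  rw [h3, h1]

/-- Exchanging open and closed edges replaces `p` by `1 - p`. -/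
theorem PR_flip (p : unitInterval) {A : Set Cfg} (hA : MeasurableSet A) :
    PR p {ω | (fun e => !(ω e)) ∈ A} = PR (unitInterval.symm p) A := by
  have hnot : Measurable (fun b : Bool => !b) := measurable_of_finite _
  have hm : Measurable (fun (ω : Cfg) (e : Edge) => !(ω e)) := by
    rw [measurable_pi_iff]
    intro e
    exact hnot.comp (measurable_pi_apply e)
  have hb : (bern p).map (fun b : Bool => !b) = bern (unitInterval.symm p) := by
    unfold bern
    rw [Measure.map_add _ _ hnot, Measure.map_smul, Measure.map_smul, Measure.map_dirac' hnot,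
      Measure.map_dirac' hnot, add_comm]
    simp
  have h1 : (perc p).map (fun (ω : Cfg) (e : Edge) => !(ω e)) = perc (unitInterval.symm p) := by
    unfold perc
    rw [Measure.infinitePi_map_pi (μ := fun _ : Edge => bern p) (f := fun _ b => !b)
      (fun _ => hnot)]
    simp only [hb]
  have h3 : (perc p).real {ω | (fun e => !(ω e)) ∈ A} =
      ((perc p).map (fun (ω : Cfg) (e : Edge) => !(ω e))).real A := by
    rw [map_measureReal_apply hm hA]; rfl
  unfold PR
  rw [h3, h1]

/-- A single edge. -/
theorem bern_true (p : unitInterval) : bern p {true} = ENNReal.ofReal p.1 := by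
  simp [bern]

theorem bern_false (p : unitInterval) : bern p {false} = ENNReal.ofReal (1 - p.1) := by
  simp [bern]

theorem PR_open (p : unitInterval) (e : Edge) : PR p {ω | ω e = true} = p.1 := by
  have h1 : (perc p).map (fun ω : Cfg => ω e) = bern p := by
    unfold perc
    exact Measure.infinitePi_map_eval (fun _ : Edge => bern p) e
  have h2 : (perc p).real {ω | ω e = true} = ((perc p).map (fun ω : Cfg => ω e)).real {true} := by
    rw [map_measureReal_apply (by fun_prop) (measurableSet_singleton _)]; rfl
  unfold PR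
  rw [h2, h1, Measure.real, bern_true, ENNReal.toReal_ofReal p.2.1]

/-! ### Finite formula -/

open Classical in
/-- The configuration whose open edges are the elements of `T`. -/
noncomputable def cfgOf (T : Finset Edge) : Cfg := fun e => decide (e ∈ T)

/-- Finite product expectation, as a polynomial in `q`. -/
noncomputable def pol (D : Finset Edge) (f : Finset Edge → ℝ) (q : ℝ) : ℝ :=
  ∑ T ∈ D.powerset, q ^ T.card * (1 - q) ^ (D.card - T.card) * f T

/-- Probability of a cylinder. -/
theorem PR_cylinder (p : unitInterval) (D : Finset Edge) {T : Finset Edge} (hT : T ⊆ D) :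
    PR p {ω | ∀ e ∈ D, ω e = cfgOf T e} = p.1 ^ T.card * (1 - p.1) ^ (D.card - T.card) := by
  classical
  have h1 : {ω : Cfg | ∀ e ∈ D, ω e = cfgOf T e} =
      (D : Set Edge).pi (fun e => {cfgOf T e}) := by
    ext ω; simp [Set.mem_pi]
  unfold PR Measure.real perc
  rw [h1, Measure.infinitePi_pi _ (fun i _ => measurableSet_singleton _), ENNReal.toReal_prod,
    ← Finset.prod_sdiff hT, mul_comm]
  have hp0 := p.2.1
  have hp1 : 0 ≤ 1 - p.1 := by have := p.2.2; linarith
  have h2 : ∏ e ∈ T, ((bern p) {cfgOf T e}).toReal = p.1 ^ T.card := by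
    rw [Finset.prod_congr rfl (g := fun _ => p.1), Finset.prod_const]
    intro e he
    have : cfgOf T e = true := by simp [cfgOf, he]
    rw [this, bern_true, ENNReal.toReal_ofReal hp0]
  have h3 : ∏ e ∈ D \ T, ((bern p) {cfgOf T e}).toReal = (1 - p.1) ^ (D.card - T.card) := by
    rw [Finset.prod_congr rfl (g := fun _ => 1 - p.1), Finset.prod_const,
      Finset.card_sdiff_of_subset hT]
    intro e he
    have : cfgOf T e = false := by simp [cfgOf, (Finset.mem_sdiff.1 he).2]
    rw [this, bern_false, ENNReal.toReal_ofReal hp1]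
  rw [h2, h3]

open Classical in
theorem PR_finite (p : unitInterval) {D : Finset Edge} {A : Set Cfg}
    (h : Dep (↑D : Set Edge) A) :
    PR p A = pol D (fun T => if cfgOf T ∈ A then 1 else 0) p.1 := by
  have hcyl : ∀ T : Finset Edge, MeasurableSet {ω : Cfg | ∀ e ∈ D, ω e = cfgOf T e} := by
    intro T
    refine measurableSet_of_dep (F := D) ?_
    intro ω ω' hω
    refine forall₂_congr fun e he => ?_
    rw [hω e he]
  have h1 : A = ⋃ T ∈ D.powerset.filter (fun T => cfgOf T ∈ A),
      {ω : Cfg | ∀ e ∈ D, ω e = cfgOf T e} := by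
    ext ω
    simp only [Set.mem_iUnion, Finset.mem_filter, Finset.mem_powerset, exists_prop,
      Set.mem_ofPred_eq]
    constructor
    · intro hω
      refine ⟨D.filter (fun e => ω e = true), ⟨Finset.filter_subset _ _, ?_⟩, ?_⟩
      · refine (h ω _ fun e he => ?_).1 hω
        cases hh : ω e <;> simp [cfgOf, hh, Finset.mem_coe.1 he]
      · intro e he
        cases hh : ω e <;> simp [cfgOf, hh, he]
    · rintro ⟨T, ⟨hT, hTA⟩, h2⟩
      exact (h ω _ fun e he => h2 e he).2 hTA
  have h2 : PR p A = ∑ T ∈ D.powerset.filter (fun T => cfgOf T ∈ A),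
      PR p {ω : Cfg | ∀ e ∈ D, ω e = cfgOf T e} := by
    conv_lhs => rw [h1]
    unfold PR
    refine measureReal_biUnion_finset ?_ (fun T _ => hcyl T)
    intro T hT T' hT' hne
    rw [Function.onFun, Set.disjoint_left]
    intro ω h3 h4
    apply hne
    have hT1 := Finset.mem_powerset.1 (Finset.mem_filter.1 hT).1
    have hT2 := Finset.mem_powerset.1 (Finset.mem_filter.1 hT').1
    ext e
    constructor
    · intro he
      have h5 := h3 e (hT1 he)
      have h6 := h4 e (hT1 he)
      rw [h5] at h6
      simpa [cfgOf, he] using h6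
    · intro he
      have h5 := h3 e (hT2 he)
      have h6 := h4 e (hT2 he)
      rw [h5] at h6
      simpa [cfgOf, he] using h6
  rw [h2, pol, Finset.sum_filter]
  refine Finset.sum_congr rfl fun T hT => ?_
  split_ifs with h3
  · rw [PR_cylinder p D (Finset.mem_powerset.1 hT), mul_one]
  · rw [mul_zero]

end Pool.Agent.SAWP
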